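import Pool.Agent.H94.PG.M05
import Pool.Agent.H94.PG.M31
import Pool.Agent.H94.PG.M36

/-!
# PE, SmallP: the small primes where `χ` is not `-1`

`v(a) = λ(a) χ(a)` (`vv m χ a`), `= ±1` for `a` prime to `m`; `k = cc m (FC m η) χ`, `|k|² = 1 - wout ≤ 1` (`wout_eq`), `x1 = ⌊m^(1/100)⌋`, `x2 = ⌊m^(1/200)⌋`, `E = (φ(m)/m) log m`.
* `t6_D` (`PD/T6.lean`): `D = ∑_{a ∈ cop m x1} |v(a) - k|²/a ≤ C1 w E`, `w = wout m η {χ}`.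
* `B'` = the primes `p ≤ m^(1/200)`, `p ∤ m`, `χ(p) ≠ -1`; so `χ(p) = 1` (`χ² = 1`, `p` prime to `m`) and `v(p a) = - v(a)`.  For `p ∈ B'` and `a ∈ cop m x2`: `p a ∈ cop m x1` and
  `|v(a) - k|² + |v(p a) - k|² = 2 |v(a)|² + 2 |k|² ≥ 2` (parallelogram).
* `β = ∑_{B'} 1/p`, `S2 = ∑_{a ∈ cop m x2} 1/a ≥ E/400` (`cop_harm`, as in `t6`), `S = ∑_{n ∈ cop m x1} 1/n ≤ C2 E` (`cop_harm_up`):
  `2 β S2 ≤ ∑_p (1/p) ∑_a |v(a)-k|²/a + ∑_p ∑_a |v(pa)-k|²/(pa) ≤ β D + ∑_{n ∈ cop m x1} (|v(n)-k|²/n) #{p ∈ B' : p ∣ n}`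
  and by Cauchy-Schwarz the last sum is `≤ (∑ |v(n)-k|⁴/n)^(1/2) (∑_n #{p ∈ B' : p ∣ n}²/n)^(1/2) ≤ (4 D)^(1/2) ((β + β²) S)^(1/2)`
  (`|v - k| ≤ 2`; `#{..}² = ∑_{p,p'}`, `∑_{n : p ∣ n} 1/n ≤ S/p`, `∑_{n : p p' ∣ n} 1/n ≤ S/(p p')` for `p ≠ p'`, the cofactor is in `cop m x1`).
* So `β/200 ≤ β C1 w + 2 (C1 C2 w (β + β²))^(1/2)`.  If `C1 w ≤ 1/400`: `β² ≤ C3 w (β + β²)`, `C3 = 640000 C1 C2`; if also `C3 w ≤ 1/2`: `β ≤ 2 C3 w`.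
-/

set_option autoImplicit false

namespace Pool.Agent.H78.PE

open Finset
open Pool.Agent.H34PG (lam lam_val lam_mul lam_prime)
open Pool.Agent.H11.LQ Pool.Agent.H78.PG Pool.Agent.H78.PD

open Classical in
theorem small_p : ∃ δ0 C : ℝ, 0 < δ0 ∧ 0 < C ∧ ∃ m0 : ℕ, ∀ (m : ℕ) [NeZero m], m0 ≤ m →
    ∀ η : ℤ, (η = 1 ∨ η = -1) → ∀ χ : DirichletCharacter ℂ m, χ ^ 2 = 1 →
    wout m η {χ} ≤ δ0 → ∑ q ∈ Bad m χ (3 / 10) (37 / 100), 1 / (q : ℝ) ≤ δ0 →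
    ∑ p ∈ (Icc 1 ⌊(m : ℝ) ^ (1 / 200 : ℝ)⌋₊).filter
      (fun p : ℕ => p.Prime ∧ ¬ p ∣ m ∧ χ (p : ZMod m) ≠ -1), 1 / (p : ℝ) ≤ C * wout m η {χ} := by
  obtain ⟨δ1, K1, hδ1, hK1, m1, hT⟩ := t6_D
  obtain ⟨K2, hK2, m2, hH⟩ := cop_harm_up
  obtain ⟨m3, hg⟩ := grow 2 0 (1 / 400) (by norm_num)
  refine ⟨min δ1 (min (1 / 400 / K1) (1 / 2 / (640000 * K1 * K2))), 2 * (640000 * K1 * K2),
    by positivity, by positivity, m1 + m2 + m3 + 3, ?_⟩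
  intro m _ hm η hη χ hχ hw hB
  have hw1 : K1 * wout m η {χ} ≤ 1 / 400 := by
    have := hw.trans ((min_le_right _ _).trans (min_le_left _ _))
    rw [le_div_iff₀ hK1] at this
    linarith
  have hw2 : 640000 * K1 * K2 * wout m η {χ} ≤ 1 / 2 := by
    have := hw.trans ((min_le_right _ _).trans (min_le_right _ _))
    rw [le_div_iff₀ (by positivity)] at this
    linarith
  have g3 := hg m (by omega)
  rw [pow_zero, mul_one] at g3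
  have hm2 : 2 ≤ m := by omega
  have hm1 : (1 : ℝ) < m := by exact_mod_cast hm2
  have hm0 : (0 : ℝ) < m := by linarith only [hm1]
  have hL : 0 < Real.log m := Real.log_pos hm1
  have hφ : (0 : ℝ) < m.totient := by
    have h2 : 0 < m.totient := Nat.totient_pos.mpr (by omega)
    exact_mod_cast h2
  have hD := hT m (by omega) η hη χ hχ (hB.trans (min_le_left _ _))
  have hS := hH m (by omega)
  obtain ⟨k, hk⟩ : ∃ k, k = cc m (FC m η) χ := ⟨_, rfl⟩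
  rw [← hk] at hD
  have hk1 : ‖k‖ ≤ 1 := by
    have h1 := wout_eq m hm2 η hη {χ}
    rw [sum_singleton] at h1
    have h2 : ww m η χ = ‖k‖ ^ 2 := by
      rw [hk]
      rfl
    rw [h2] at h1
    have h3 := wout_nonneg m η {χ}
    have h4 : ‖k‖ ^ 2 ≤ 1 ^ 2 := by linarith
    exact (sq_le_sq₀ (norm_nonneg k) (by norm_num)).mp h4
  -- lengths
  have hx : (m : ℝ) ^ (1 / 200 : ℝ) * (m : ℝ) ^ (1 / 200 : ℝ) = (m : ℝ) ^ (1 / 100 : ℝ) := by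
    rw [← Real.rpow_add hm0]
    congr 1
    norm_num
  have hx1 : (1 : ℝ) ≤ (m : ℝ) ^ (1 / 200 : ℝ) := Real.one_le_rpow hm1.le (by norm_num)
  have hS2 : m.totient / m * Real.log m / 400 ≤
      ∑ a ∈ cop m ⌊(m : ℝ) ^ (1 / 200 : ℝ)⌋₊, 1 / (a : ℝ) := by
    have e0 : (m : ℝ) ^ (1 / 400 : ℝ) ≤ (⌊(m : ℝ) ^ (1 / 200 : ℝ)⌋₊ : ℝ) := by
      have e1 : (m : ℝ) ^ (1 / 200 : ℝ) = (m : ℝ) ^ (1 / 400 : ℝ) * (m : ℝ) ^ (1 / 400 : ℝ) := by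
        rw [← Real.rpow_add hm0]
        congr 1
        norm_num
      have e2 := Nat.lt_floor_add_one ((m : ℝ) ^ (1 / 200 : ℝ))
      have e3 : (m : ℝ) ^ (1 / 400 : ℝ) + 1 ≤ (m : ℝ) ^ (1 / 200 : ℝ) := by
        rw [e1]
        nlinarith only [g3]
      linarith only [e2, e3]
    have e4 : 1 ≤ ⌊(m : ℝ) ^ (1 / 200 : ℝ)⌋₊ := by
      have : (1 : ℝ) ≤ (⌊(m : ℝ) ^ (1 / 200 : ℝ)⌋₊ : ℝ) := by linarith only [g3, e0]
      exact_mod_cast this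
    have e5 := cop_harm m ⌊(m : ℝ) ^ (1 / 200 : ℝ)⌋₊ (by omega) e4
    refine le_trans ?_ e5
    rw [mul_div_assoc]
    refine mul_le_mul_of_nonneg_left ?_ (by positivity)
    have e6 : Real.log ((m : ℝ) ^ (1 / 400 : ℝ)) ≤ Real.log (⌊(m : ℝ) ^ (1 / 200 : ℝ)⌋₊ : ℝ) :=
      Real.log_le_log (by positivity) e0
    rw [Real.log_rpow hm0] at e6
    linarith only [e6]
  -- the sets
  obtain ⟨C1, hC1⟩ : ∃ C1, C1 = cop m ⌊(m : ℝ) ^ (1 / 100 : ℝ)⌋₊ := ⟨_, rfl⟩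
  obtain ⟨C2, hC2⟩ : ∃ C2, C2 = cop m ⌊(m : ℝ) ^ (1 / 200 : ℝ)⌋₊ := ⟨_, rfl⟩
  obtain ⟨P, hP⟩ : ∃ P, P = (Icc 1 ⌊(m : ℝ) ^ (1 / 200 : ℝ)⌋₊).filter
      (fun p : ℕ => p.Prime ∧ ¬ p ∣ m ∧ χ (p : ZMod m) ≠ -1) := ⟨_, rfl⟩
  rw [← hC1] at hD hS
  rw [← hC2] at hS2
  rw [← hP]
  have hPm : ∀ p ∈ P, p.Prime ∧ p.Coprime m ∧ χ (p : ZMod m) = 1 ∧
      (p : ℝ) ≤ (m : ℝ) ^ (1 / 200 : ℝ) := by
    intro p hp
    rw [hP, mem_filter, mem_Icc] at hp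
    obtain ⟨⟨a1, a2⟩, a3, a4, a5⟩ := hp
    have a6 : p.Coprime m := (Nat.Prime.coprime_iff_not_dvd a3).mpr a4
    refine ⟨a3, a6, ?_, (Nat.le_floor_iff (by positivity)).mp a2⟩
    obtain ⟨u, hu⟩ : IsUnit (p : ZMod m) := (ZMod.isUnit_iff_coprime p m).mpr a6
    have h1 : χ (p : ZMod m) * χ (p : ZMod m) = 1 := by
      rw [← hu, ← MulChar.mul_apply, ← sq, hχ]
      exact MulChar.one_apply_coe u
    rcases mul_self_eq_one_iff.mp h1 with h2 | h2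
    · exact h2
    · exact absurd h2 a5
  have hC1m : ∀ n, n ∈ C1 ↔ 1 ≤ n ∧ (n : ℝ) ≤ (m : ℝ) ^ (1 / 100 : ℝ) ∧ n.Coprime m := by
    intro n
    rw [hC1, mem_cop, Nat.le_floor_iff (by positivity)]
  have hC2m : ∀ n, n ∈ C2 ↔ 1 ≤ n ∧ (n : ℝ) ≤ (m : ℝ) ^ (1 / 200 : ℝ) ∧ n.Coprime m := by
    intro n
    rw [hC2, mem_cop, Nat.le_floor_iff (by positivity)]
  have hnorm : ∀ n ∈ C1, ‖vv m χ n‖ = 1 := by
    intro n hn
    obtain ⟨a1, _, a3⟩ := (hC1m n).mp hn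
    obtain ⟨u, hu⟩ : IsUnit (n : ZMod m) := (ZMod.isUnit_iff_coprime n m).mpr a3
    have h2 : ‖χ (n : ZMod m)‖ = 1 := by
      rw [← hu]
      exact DirichletCharacter.unit_norm_eq_one χ u
    unfold vv
    rw [norm_mul, h2, mul_one]
    rcases lam_val n with h | h <;> rw [h] <;> simp
  have hsub : C2 ⊆ C1 := by
    intro n hn
    rw [hC2m] at hn
    rw [hC1m]
    refine ⟨hn.1, hn.2.1.trans ?_, hn.2.2⟩
    rw [← hx]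
    exact le_mul_of_one_le_left (by positivity) hx1
  have hmul : ∀ p ∈ P, ∀ a ∈ C2, p * a ∈ C1 ∧ vv m χ (p * a) = -vv m χ a := by
    intro p hp a ha
    obtain ⟨p1, p2, p3, p4⟩ := hPm p hp
    obtain ⟨a1, a2, a3⟩ := (hC2m a).mp ha
    refine ⟨?_, ?_⟩
    · rw [hC1m]
      refine ⟨Nat.mul_pos p1.pos a1, ?_, Nat.Coprime.mul_left p2 a3⟩
      push_cast
      rw [← hx]
      gcongr
    · unfold vv
      rw [lam_mul p a p1.pos (by omega), lam_prime p1, Nat.cast_mul, map_mul, p3]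
      push_cast
      ring
  have hdiv : ∀ d n : ℕ, d ∣ n → n ∈ C1 → n / d ∈ C1 := by
    intro d n hd hn
    obtain ⟨a1, a2, a3⟩ := (hC1m n).mp hn
    have hdp : 0 < d := Nat.pos_of_dvd_of_pos hd a1
    rw [hC1m]
    refine ⟨Nat.div_pos (Nat.le_of_dvd a1 hd) hdp, ?_, ?_⟩
    · have : ((n / d : ℕ) : ℝ) ≤ n := by exact_mod_cast Nat.div_le_self n d
      exact this.trans a2
    · exact Nat.Coprime.coprime_dvd_left (Nat.div_dvd_of_dvd hd) a3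
  have hcore := SmallP_core C1 C2 P (vv m χ) k hk1 hnorm hsub (fun p hp => (hPm p hp).1) hmul hdiv
    _ _ _ _ rfl rfl rfl rfl
  refine SmallP_fin K1 K2 (wout m η {χ}) (m.totient / m * Real.log m) _ _ _ _ hK1 hK2
    (wout_nonneg m η {χ}) (by positivity) (sum_nonneg fun _ _ => by positivity) hS2 hS hD
    (sum_nonneg fun _ _ => by positivity) hw1 hw2 hcore

end Pool.Agent.H78.PE
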