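import Pool.Agent.H94.PG.H11.LQ.Fin7
import Pool.Agent.H94.PG.H78.PD.Pri

/-!
# PE, Step8: a rare pattern gives a character with small `Dd`

As `step7` in `H11/LQ/Fin7.lean`.  WLOG `ε ≤ 1`.  `ε0, k0` from `common`; `ε' = min (ε/16) ε0`, `κ = min (ε/16) k0`, `β = ε²/800`; `θ, ε1, Q0, m0` from `ana4_fail ε'`.  `w = rt N`, `ρ = c1/w^k`, `Q = ⌊ρ^(-1/640)⌋`, with `c1` small and
`k ≥ 640/θ + 4` as in `step7`: `combi3` gives `m ∣ M`, `m ≥ M^(1/2)`, `m ≥ ρ^(1/8) M`, `#Ex m η q ≤ √ρ m` for the primes `q ≤ Q`.  `cls κ β` with `σ = √ρ` (`Q² √ρ ≤ ρ^(1/4) ≤ ε1 β/2`) gives `G`; for `d ∈ G` the modulus `m/d ≥ m^(1-κ)` has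
`FailU θ ε1 (m/d) η Q` (`rt (m/d) ≤ rt N ≤ Q^θ`: `rt_mono`), so `ana4_fail` gives the character of `d`, `common` gives `c`, `ψ`, and `dst` gives `Dd m ψ ≤ ε/2` (`Prt.mono` from `ε'` to `ε/16`; `#Bd m G < m` so `G` is not empty).
`Dd N ψ ≤ Dd m ψ + ∑_{m < p ≤ N} 1/p` (`m/c ∣ N/c`: the exponents grow) and `∑_{m < p ≤ N} 1/p ≤ ε/2`: `m ≥ N^(1-κ')` for `N` large (as in `stage3b`: `C rt^k ≤ N^κ'`), `pri_mert` at the modulus `N` (`a = 1-κ'`, `b = 1`) for the primes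
`p ∤ N`, and at most one prime `> N^(1/2)` divides `N`.
-/

set_option autoImplicit false

namespace Pool.Agent.H78.PE

open Finset
open Pool.Agent.H34PG (lam lam_val lam_mul lam_prime)
open Pool.Agent.H11.LQ Pool.Agent.H78.PG Pool.Agent.H78.PD

/-- the constants of `step8_pre` -/
private theorem step8_const (ρ0 ε1 : ℝ) (Q0 : ℕ) (h0 : 0 < ρ0) (h1 : 0 < ε1) :
    ∃ c1 : ℝ, 0 < c1 ∧ c1 ≤ 1 ∧ c1 ≤ ρ0 ∧ (Q0 : ℝ) + 4 ≤ c1 ^ (-(1 / 640) : ℝ) ∧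
      c1 ^ (1 / 4 : ℝ) ≤ ε1 := by
  have hQ : (0 : ℝ) < (Q0 : ℝ) + 4 := by positivity
  obtain ⟨a, ha⟩ : ∃ a : ℝ, a = ((Q0 : ℝ) + 4) ^ (-(640 : ℝ)) := ⟨_, rfl⟩
  obtain ⟨b, hb⟩ : ∃ b : ℝ, b = ε1 ^ (4 : ℝ) := ⟨_, rfl⟩
  have ha0 : 0 < a := by rw [ha]; positivity
  have hb0 : 0 < b := by rw [hb]; positivity
  refine ⟨min 1 (min ρ0 (min a b)), lt_min one_pos (lt_min h0 (lt_min ha0 hb0)), min_le_left _ _,
    (min_le_right _ _).trans (min_le_left _ _), ?_, ?_⟩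
  · have h3 : min 1 (min ρ0 (min a b)) ≤ a :=
      (min_le_right _ _).trans ((min_le_right _ _).trans (min_le_left _ _))
    have h4 : a ^ (-(1 / 640) : ℝ) = (Q0 : ℝ) + 4 := by
      rw [ha, ← Real.rpow_mul hQ.le]
      norm_num
    rw [← h4]
    exact Real.rpow_le_rpow_of_nonpos (lt_min one_pos (lt_min h0 (lt_min ha0 hb0))) h3 (by norm_num)
  · have h3 : min 1 (min ρ0 (min a b)) ≤ b :=
      (min_le_right _ _).trans ((min_le_right _ _).trans (min_le_right _ _))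
    have h4 : b ^ (1 / 4 : ℝ) = ε1 := by
      rw [hb, ← Real.rpow_mul (by positivity)]
      norm_num
    calc _ ≤ b ^ (1 / 4 : ℝ) :=
          Real.rpow_le_rpow (lt_min one_pos (lt_min h0 (lt_min ha0 hb0))).le h3 (by norm_num)
      _ = ε1 := h4

/-- `step7` with the raw information on the exceptional sets -/
theorem step8_pre (θ : ℝ) (hθ : 0 < θ) : ∃ k : ℕ, ∀ ε1 : ℝ, 0 < ε1 → ∀ Q0 m0 : ℕ,
    ∃ C : ℝ, 1 ≤ C ∧ ∃ N0 : ℕ,
    ∀ N : ℕ, N0 ≤ N → ∀ M : ℕ, M ∣ N → N ≤ 2 * M → ∀ η : ℤ, (η = 1 ∨ η = -1) → ∀ R : ℕ,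
      (Ex M η 2).card ≤ 24 * R + 4 → (N : ℝ) ≤ C * rt N ^ k * R ∨
      ∃ (m : ℕ) (Q : ℕ) (σ : ℝ), 0 < m ∧ m ∣ M ∧ m0 ≤ m ∧
        (N : ℝ) ≤ C * rt N ^ k * m ∧ Q0 ≤ Q ∧ 1 ≤ Q ∧ rt N ≤ (Q : ℝ) ^ θ ∧
        (Q : ℝ) ^ 2 * σ ≤ ε1 ∧
        ∀ q : ℕ, q.Prime → q ≤ Q → ((Ex m η q).card : ℝ) ≤ σ * m := by
  obtain ⟨c0, ρ0, hc0, hρ0, hρ01, m1, H1⟩ := combi3
  obtain ⟨k, hk⟩ : ∃ k : ℕ, k = ⌈640 / θ⌉₊ + 4 := ⟨_, rfl⟩
  refine ⟨k, fun ε1 hε1 Q0 m0 => ?_⟩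
  obtain ⟨c1, hc1, hc11, hc1ρ, hc1Q, hc1ε⟩ := step8_const ρ0 ε1 Q0 hρ0 hε1
  obtain ⟨d, hd⟩ : ∃ d : ℝ, d = min c0 (1 / 2) := ⟨_, rfl⟩
  have hd0 : 0 < d := by rw [hd]; exact lt_min hc0 (by norm_num)
  have hdc : d ≤ c0 := by rw [hd]; exact min_le_left _ _
  have hd2 : d ≤ 1 / 2 := by rw [hd]; exact min_le_right _ _
  obtain ⟨m2, H2⟩ := Pool.Agent.H78.PG.grow (4 ^ k / c1) k d hd0
  refine ⟨100 / c1, by rw [le_div_iff₀ hc1]; linarith only [hρ0, hρ01, hc11], 2 * m1 + 2 * m2 + 2 * m0 ^ 2 + 200,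
    fun N hN M hMN hNM η hη R hR => ?_⟩
  have hM0 : 0 < M := by omega
  have hMle : M ≤ N := Nat.le_of_dvd (by omega) hMN
  have hMr : (0 : ℝ) < M := by exact_mod_cast hM0
  have hM100 : (100 : ℝ) ≤ M := by exact_mod_cast (by omega : 100 ≤ M)
  have hMN' : (M : ℝ) ≤ N := by exact_mod_cast hMle
  have hNM' : (N : ℝ) ≤ 2 * M := by exact_mod_cast hNM
  obtain ⟨w, hw⟩ : ∃ w : ℝ, w = rt N := ⟨_, rfl⟩
  have hw1 : 1 ≤ w := by rw [hw]; exact rt_ge (by omega)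
  have hw0 : 0 < w := by linarith only [hρ0, hρ01, hw1]
  rw [← hw]
  obtain ⟨ρ, hρ⟩ : ∃ ρ : ℝ, ρ = c1 / w ^ k := ⟨_, rfl⟩
  have hwk : 1 ≤ w ^ k := one_le_pow₀ hw1
  have hρpos : 0 < ρ := by rw [hρ]; positivity
  have hρc1 : ρ ≤ c1 := by
    rw [hρ]
    exact div_le_self hc1.le hwk
  have hρ1 : ρ ≤ 1 := hρc1.trans hc11
  have hCρ : 100 / c1 * w ^ k = 100 / ρ := by
    rw [hρ]
    field_simp
  rw [hCρ]
  -- `M ^ (-d) ≤ ρ`
  have hρM : (M : ℝ) ^ (-d) ≤ ρ := by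
    have h1 := H2 M (by omega)
    have h2 : w ≤ 4 * (1 + Real.log M) := by
      have h3 := rt_le (N := N) (by omega)
      have h4 : Real.log N ≤ Real.log 2 + Real.log M := by
        rw [← Real.log_mul (by norm_num) hMr.ne']
        exact Real.log_le_log (by exact_mod_cast (by omega : 0 < N)) hNM'
      have h5 := Real.log_two_lt_d9
      have h6 : 0 ≤ Real.log M := Real.log_nonneg (by linarith only [hρ0, hρ01, hM100])
      rw [hw]
      linarith only [hρ0, hρ01, h3, h4, h5, h6]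
    have h3 : w ^ k / c1 ≤ (M : ℝ) ^ d := by
      refine le_trans ?_ h1
      rw [div_mul_eq_mul_div, ← mul_pow]
      exact div_le_div_of_nonneg_right (pow_le_pow_left₀ hw0.le h2 k) hc1.le
    have h4 : 0 < (M : ℝ) ^ d := by positivity
    rw [Real.rpow_neg hMr.le, hρ, inv_eq_one_div, div_le_div_iff₀ h4 (by positivity)]
    rw [div_le_iff₀ hc1] at h3
    linarith only [h3]
  rcases le_or_gt (N : ℝ) (100 / ρ * R) with hcase | hcase
  · exact Or.inl hcase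
  right
  -- the exceptional set of `2` is small
  have hRN : (R : ℝ) < ρ / 100 * N := by
    rw [div_mul_eq_mul_div, div_lt_iff₀ hρpos] at hcase
    linarith only [hcase]
  have he2 : ((Ex M η 2).card : ℝ) ≤ ρ * M := by
    have h4 : ((Ex M η 2).card : ℝ) ≤ 24 * (R : ℝ) + 4 := by exact_mod_cast hR
    have h7 : (M : ℝ) ^ (1 / 2 : ℝ) ≤ ρ * M := by
      calc (M : ℝ) ^ (1 / 2 : ℝ) ≤ (M : ℝ) ^ (-d + 1) :=
            Real.rpow_le_rpow_of_exponent_le (by linarith only [hρ0, hρ01, hM100]) (by linarith only [hd2])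
        _ = (M : ℝ) ^ (-d) * M := by rw [Real.rpow_add hMr, Real.rpow_one]
        _ ≤ ρ * M := mul_le_mul_of_nonneg_right hρM hMr.le
    have h6 : (10 : ℝ) ≤ ρ * M := by
      refine le_trans ?_ h7
      rw [← Real.sqrt_eq_rpow]
      refine Real.le_sqrt_of_sq_le ?_
      linarith only [hM100]
    have h8 : ρ * N ≤ ρ * (2 * M) := mul_le_mul_of_nonneg_left hNM' hρpos.le
    linarith only [hρ0, hρ01, hRN, h4, h6, h8]
  have hρM' : (M : ℝ) ^ (-c0) ≤ ρ := le_trans (Real.rpow_le_rpow_of_exponent_le (by linarith only [hρ0, hρ01, hM100])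
    (by linarith only [hdc])) hρM
  obtain ⟨m, hmM, hm1, hm2, hm3⟩ := H1 M (by omega) ρ hρM' (hρc1.trans hc1ρ) η hη he2
  have hm0 : 0 < m := Nat.pos_of_dvd_of_pos hmM hM0
  have hmr : (0 : ℝ) < m := by exact_mod_cast hm0
  obtain ⟨z, hz⟩ : ∃ z : ℝ, z = ρ ^ (-(1 / 640) : ℝ) := ⟨_, rfl⟩
  rw [← hz] at hm3
  -- lower bounds for `z`
  have hk1 : 640 / θ ≤ (k : ℝ) - 4 := by
    rw [hk]
    push_cast
    linarith only [Nat.le_ceil (640 / θ)]
  have hzge : ((Q0 : ℝ) + 4) * w ^ ((k : ℝ) / 640) ≤ z := by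
    have h1 : z = c1 ^ (-(1 / 640) : ℝ) * w ^ ((k : ℝ) / 640) := by
      rw [hz, hρ, Real.div_rpow hc1.le (by positivity), ← Real.rpow_natCast w k,
        ← Real.rpow_mul hw0.le, div_eq_mul_inv, ← Real.rpow_neg hw0.le]
      congr 2
      ring
    rw [h1]
    exact mul_le_mul_of_nonneg_right hc1Q (by positivity)
  have hb1 : 1 ≤ w ^ ((k : ℝ) / 640) := Real.one_le_rpow hw1 (by positivity)
  have hQ0r : (0 : ℝ) ≤ Q0 := Nat.cast_nonneg _
  have hz4 : (Q0 : ℝ) + 4 ≤ z := by nlinarith only [hzge, hb1]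
  have hz0 : 0 < z := by linarith only [hρ0, hρ01, hz4]
  obtain ⟨Q, hQ⟩ : ∃ Q : ℕ, Q = ⌊z⌋₊ := ⟨_, rfl⟩
  have hQz : (Q : ℝ) ≤ z := by rw [hQ]; exact Nat.floor_le hz0.le
  have hzQ : z < Q + 1 := by rw [hQ]; exact Nat.lt_floor_add_one z
  have hQQ0 : Q0 ≤ Q := by
    rw [hQ]
    exact Nat.le_floor (by linarith only [hρ0, hρ01, hz4])
  have hQ1 : 1 ≤ Q := by
    rw [hQ]
    exact Nat.le_floor (by push_cast; linarith only [hρ0, hρ01, hz4])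
  have hQb : w ^ ((k : ℝ) / 640) ≤ Q := by
    have h1 : 4 * w ^ ((k : ℝ) / 640) ≤ z := by nlinarith only [hzge, hb1]
    linarith only [hρ0, hρ01, hz4, hzQ, h1]
  have hQθ : w ≤ (Q : ℝ) ^ θ := by
    calc w = w ^ (1 : ℝ) := (Real.rpow_one _).symm
      _ ≤ w ^ ((k : ℝ) / 640 * θ) := by
          refine Real.rpow_le_rpow_of_exponent_le hw1 ?_
          rw [div_mul_eq_mul_div, le_div_iff₀ (by norm_num)]
          have h2 : 640 / θ ≤ (k : ℝ) := by linarith only [hρ0, hρ01, hk1]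
          rw [div_le_iff₀ hθ] at h2
          linarith only [h2]
      _ = (w ^ ((k : ℝ) / 640)) ^ θ := by rw [← Real.rpow_mul hw0.le]
      _ ≤ (Q : ℝ) ^ θ := Real.rpow_le_rpow (by positivity) hQb hθ.le
  refine ⟨m, Q, Real.sqrt ρ, hm0, hmM, ?_, ?_, hQQ0, hQ1, hQθ, ?_, fun q hq hqQ => ?_⟩
  · -- `m0 ≤ m`
    have h1 : (m0 : ℝ) ≤ (M : ℝ) ^ (1 / 2 : ℝ) := by
      rw [← Real.sqrt_eq_rpow]
      refine Real.le_sqrt_of_sq_le ?_
      exact_mod_cast (by omega : m0 ^ 2 ≤ M)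
    exact_mod_cast h1.trans hm1
  · -- `N ≤ (100 / ρ) m`
    have h1 : ρ ≤ ρ ^ (1 / 8 : ℝ) := by
      calc ρ = ρ ^ (1 : ℝ) := (Real.rpow_one _).symm
        _ ≤ _ := Real.rpow_le_rpow_of_exponent_ge hρpos hρ1 (by norm_num)
    have h2 : ρ * M ≤ m := le_trans (mul_le_mul_of_nonneg_right h1 hMr.le) hm2
    rw [div_mul_eq_mul_div, le_div_iff₀ hρpos]
    have h3 : ρ * N ≤ ρ * (2 * M) := mul_le_mul_of_nonneg_left hNM' hρpos.le
    linarith only [hmr, h2, h3]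
  · -- `Q² √ρ ≤ ε1`
    calc (Q : ℝ) ^ 2 * Real.sqrt ρ ≤ z ^ 2 * Real.sqrt ρ :=
          mul_le_mul_of_nonneg_right (pow_le_pow_left₀ (Nat.cast_nonneg _) hQz 2)
            (Real.sqrt_nonneg _)
      _ = ρ ^ (-(1 / 320) + 1 / 2 : ℝ) := by
          rw [Real.rpow_add hρpos, hz, Real.sqrt_eq_rpow, ← Real.rpow_natCast _ 2,
            ← Real.rpow_mul hρpos.le]
          norm_num
      _ ≤ ρ ^ (1 / 4 : ℝ) := Real.rpow_le_rpow_of_exponent_ge hρpos hρ1 (by norm_num)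
      _ ≤ c1 ^ (1 / 4 : ℝ) := Real.rpow_le_rpow hρpos.le hρc1 (by norm_num)
      _ ≤ ε1 := hc1ε
  · exact hm3 q hq (le_trans (by exact_mod_cast hqQ) hQz)

/-- the primes between `N^(1-κ)` and `N` -/
theorem step8_sum (ε : ℝ) (hε : 0 < ε) (hε1 : ε ≤ 1) : ∃ N0 : ℕ, ∀ N : ℕ, N0 ≤ N →
    ∀ m : ℕ, (N : ℝ) ^ (1 - ε / 8) ≤ m →
      ∑ p ∈ (Ioc m N).filter (fun p : ℕ => p.Prime), 1 / (p : ℝ) ≤ ε / 2 := by
  obtain ⟨N1, H1⟩ := pri_mert (1 - ε / 8) 1 (ε / 8) (by linarith only [hε1]) (by linarith only [hε]) le_rfl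
    (by linarith only [hε])
  obtain ⟨N2, H2⟩ := Pool.Agent.H78.PG.grow (8 / ε) 0 (1 / 2) (by norm_num)
  refine ⟨N1 + N2 + 2, fun N hN m hm => ?_⟩
  have hNr : (1 : ℝ) < N := by exact_mod_cast (by omega : 1 < N)
  have hN0 : (0 : ℝ) < N := by linarith only [hNr]
  obtain ⟨y, hy⟩ : ∃ y : ℝ, y = (N : ℝ) ^ (1 - ε / 8) := ⟨_, rfl⟩
  have hy0 : 0 < y := by rw [hy]; positivity
  have hyh : (N : ℝ) ^ (1 / 2 : ℝ) < y := by
    rw [hy]
    exact Real.rpow_lt_rpow_of_exponent_lt hNr (by linarith only [hε1])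
  have h2 := H2 N (by omega)
  rw [pow_zero, mul_one] at h2
  have hsq : (N : ℝ) ^ (1 / 2 : ℝ) * (N : ℝ) ^ (1 / 2 : ℝ) = N := by
    rw [← Real.rpow_add hN0]
    norm_num
  have hyN : (N : ℝ) < y * y := by
    rw [← hsq]
    exact mul_lt_mul hyh hyh.le (by positivity) hy0.le
  rw [← sum_filter_add_sum_filter_not _ (fun p => p ∣ N)]
  have hA : ∑ p ∈ ((Ioc m N).filter (fun p : ℕ => p.Prime)).filter (fun p => p ∣ N), 1 / (p : ℝ)
      ≤ ε / 8 := by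
    have hc : (((Ioc m N).filter (fun p : ℕ => p.Prime)).filter (fun p => p ∣ N)).card ≤ 1 := by
      rw [card_le_one]
      intro p hp q hq
      rw [mem_filter, mem_filter, mem_Ioc] at hp hq
      by_contra hpq
      have h3 : p * q ∣ N :=
        ((Nat.coprime_primes hp.1.2 hq.1.2).mpr hpq).mul_dvd_of_dvd_of_dvd hp.2 hq.2
      have h4 : p * q ≤ N := Nat.le_of_dvd (by omega) h3
      have h5 : (p : ℝ) * q ≤ N := by exact_mod_cast h4
      have h6 : y < p := by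
        rw [hy]
        exact lt_of_le_of_lt hm (by exact_mod_cast hp.1.1.1)
      have h7 : y < q := by
        rw [hy]
        exact lt_of_le_of_lt hm (by exact_mod_cast hq.1.1.1)
      have h8 : y * y ≤ (p : ℝ) * q := mul_le_mul h6.le h7.le hy0.le (by positivity)
      linarith only [hyN, h5, h8]
    have hb : ∀ p ∈ ((Ioc m N).filter (fun p : ℕ => p.Prime)).filter (fun p => p ∣ N),
        1 / (p : ℝ) ≤ ε / 8 := by
      intro p hp
      rw [mem_filter, mem_filter, mem_Ioc] at hp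
      have h6 : y < p := by
        rw [hy]
        exact lt_of_le_of_lt hm (by exact_mod_cast hp.1.1.1)
      have h7 : 8 / ε ≤ p := by linarith only [hyh, h2, h6]
      have hp0 : (0 : ℝ) < p := by linarith only [hy0, h6]
      rw [div_le_iff₀ hε] at h7
      rw [div_le_iff₀ hp0]
      linarith only [h7]
    calc _ ≤ ((((Ioc m N).filter (fun p : ℕ => p.Prime)).filter (fun p => p ∣ N)).card : ℝ)
          * (ε / 8) := by
            rw [← nsmul_eq_mul]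
            exact sum_le_card_nsmul _ _ _ hb
      _ ≤ 1 * (ε / 8) := by
            refine mul_le_mul_of_nonneg_right ?_ (by linarith only [hε])
            exact_mod_cast hc
      _ = ε / 8 := one_mul _
  have hB : ∑ p ∈ ((Ioc m N).filter (fun p : ℕ => p.Prime)).filter (fun p => ¬ p ∣ N), 1 / (p : ℝ)
      ≤ 3 * ε / 8 := by
    have h3 := H1 N (by omega)
    rw [Real.rpow_one] at h3
    have h4 : ∑ p ∈ ((Ioc m N).filter (fun p : ℕ => p.Prime)).filter (fun p => ¬ p ∣ N), 1 / (p : ℝ)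
        ≤ ∑ p ∈ PI N ((N : ℝ) ^ (1 - ε / 8)) N, 1 / (p : ℝ) := by
      refine sum_le_sum_of_subset_of_nonneg (fun p hp => ?_) fun _ _ _ => by positivity
      rw [mem_filter, mem_filter, mem_Ioc] at hp
      rw [mem_PI hN0.le]
      refine ⟨hp.1.2, hp.2, ?_, by exact_mod_cast hp.1.1.2⟩
      exact lt_of_le_of_lt hm (by exact_mod_cast hp.1.1.1)
    have h5 : Real.log (1 / (1 - ε / 8)) ≤ ε / 7 := by
      have h6 : 0 < 1 - ε / 8 := by linarith only [hε1]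
      have h7 := Real.log_le_sub_one_of_pos (div_pos one_pos h6)
      refine h7.trans ?_
      rw [sub_le_iff_le_add, div_le_iff₀ h6]
      nlinarith only [hε, hε1]
    have h6 := (abs_le.mp h3).2
    linarith only [hε, h4, h5, h6]
  linarith only [hA, hB]

/-- from `m` to `N` -/
theorem step8_Dd (N m c : ℕ) (hN : 1 ≤ N) (hm : m ∣ N) (hc : c ∣ m)
    (ψ : DirichletCharacter ℂ c) :
    Dd N ψ ≤ Dd m ψ + ∑ p ∈ (Ioc m N).filter (fun p : ℕ => p.Prime), 1 / (p : ℝ) := by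
  classical
  have hm0 : 0 < m := Nat.pos_of_dvd_of_pos hm (by omega)
  have hc0 : 0 < c := Nat.pos_of_dvd_of_pos hc hm0
  have hmN : m ≤ N := Nat.le_of_dvd (by omega) hm
  have hcm : c ≤ m := Nat.le_of_dvd hm0 hc
  unfold Dd
  rw [← sum_filter_add_sum_filter_not ((Icc 1 N).filter (fun p : ℕ => p.Prime ∧ ψ (p : ZMod c) ≠ -1))
    (fun p => p ≤ m)]
  refine add_le_add ?_ ?_
  · have h1 : ((Icc 1 N).filter (fun p : ℕ => p.Prime ∧ ψ (p : ZMod c) ≠ -1)).filter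
        (fun p => p ≤ m) = (Icc 1 m).filter (fun p : ℕ => p.Prime ∧ ψ (p : ZMod c) ≠ -1) := by
      ext p
      simp only [mem_filter, mem_Icc]
      constructor
      · rintro ⟨⟨⟨a1, a2⟩, a3⟩, a4⟩
        exact ⟨⟨a1, a4⟩, a3⟩
      · rintro ⟨⟨a1, a4⟩, a3⟩
        exact ⟨⟨⟨a1, a4.trans hmN⟩, a3⟩, a4⟩
    rw [h1]
    refine sum_le_sum fun p hp => ?_
    rw [mem_filter] at hp
    have hp1 : (1 : ℝ) ≤ p := by exact_mod_cast hp.2.1.one_le
    refine one_div_le_one_div_of_le (by positivity) ?_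
    refine pow_le_pow_right₀ hp1 ?_
    have h2 : m / c ∣ N / c := Nat.div_dvd_div hc hm
    have h3 : N / c ≠ 0 := (Nat.div_pos (hcm.trans hmN) hc0).ne'
    have h4 : m / c ≠ 0 := (Nat.div_pos hcm hc0).ne'
    have h5 := (Nat.factorization_le_iff_dvd h4 h3).mpr h2 p
    omega
  · refine le_trans (sum_le_sum fun p hp => ?_) (sum_le_sum_of_subset_of_nonneg
      (f := fun p : ℕ => 1 / (p : ℝ)) (fun p hp => ?_) fun _ _ _ => by positivity)
    · rw [mem_filter, mem_filter] at hp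
      have hp1 : (1 : ℝ) ≤ p := by exact_mod_cast hp.1.2.1.one_le
      refine one_div_le_one_div_of_le (by positivity) ?_
      calc (p : ℝ) = (p : ℝ) ^ 1 := (pow_one _).symm
        _ ≤ _ := pow_le_pow_right₀ hp1 (by omega)
    · rw [mem_filter, mem_filter, mem_Icc] at hp
      rw [mem_filter, mem_Ioc]
      exact ⟨⟨not_le.mp hp.2, hp.1.1.2⟩, hp.1.2.1⟩

end Pool.Agent.H78.PE
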